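import Pool.Agent.U588.LBP.Stm

set_option autoImplicit false

/-! # Project LBP (helper588), package DFR: free modules on directed colimits -/

namespace Pool.Agent.U364.LBP

open Pool.Agent.U588.LBP CategoryTheory

theorem t_DFR : S_DFR := by
  classical
  intro R _ J _ N L t l hD A _
  have hcl : ∀ i j (h : i ≤ j) (w : N i →₀ A), Finsupp.mapDomain (l j)
      (Finsupp.mapDomain (t i j h) w) = Finsupp.mapDomain (l i) w := by
    intro i j h w
    rw [← Finsupp.mapDomain_comp]
    congr 1
    funext x
    exact hD.compl i j h x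
  refine ⟨fun v => ?_, fun i w hw => ?_⟩
  · induction v using Finsupp.induction_linear with
    | zero =>
      obtain ⟨i⟩ := hD.ne
      exact ⟨i, 0, Finsupp.mapDomain_zero⟩
    | add v v' hv hv' =>
      obtain ⟨i, w, rfl⟩ := hv
      obtain ⟨j, w', rfl⟩ := hv'
      obtain ⟨k, hi, hj⟩ := hD.dir i j
      exact ⟨k, Finsupp.mapDomain (t i k hi) w + Finsupp.mapDomain (t j k hj) w', by
        rw [Finsupp.mapDomain_add, hcl, hcl]⟩
    | single y a =>
      obtain ⟨i, x, rfl⟩ := hD.surj y
      exact ⟨i, Finsupp.single x a, Finsupp.mapDomain_single⟩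
  · have fin : ∀ T : Finset (N i), (∀ x ∈ T, l i x = 0) →
        ∃ j, ∃ h : i ≤ j, ∀ x ∈ T, t i j h x = 0 := by
      intro T
      induction T using Finset.induction_on with
      | empty => exact fun _ => ⟨i, le_rfl, fun x hx => absurd hx (Finset.notMem_empty x)⟩
      | insert x T hx ih =>
        intro h
        obtain ⟨j, hj, h1⟩ := ih fun y hy => h y (Finset.mem_insert_of_mem hy)
        obtain ⟨j', hj', h2⟩ := hD.inj i x (h x (Finset.mem_insert_self x T))
        obtain ⟨k, hk, hk'⟩ := hD.dir j j'
        refine ⟨k, hj.trans hk, fun y hy => ?_⟩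
        rcases Finset.mem_insert.1 hy with rfl | hy
        · rw [← hD.comp i j' k hj' hk', h2, map_zero]
        · rw [← hD.comp i j k hj hk, h1 y hy, map_zero]
    obtain ⟨j, h, hj⟩ := fin (((w.support ×ˢ w.support).image fun p => p.1 - p.2).filter
      fun x => l i x = 0) fun x hx => (Finset.mem_filter.1 hx).2
    refine ⟨j, h, ?_⟩
    have hinj : Set.InjOn (l j) ((w.support.image (t i j h) : Finset (N j)) : Set (N j)) := by
      intro a ha b hb hab
      obtain ⟨x, hx, rfl⟩ := Finset.mem_image.1 (Finset.mem_coe.1 ha)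
      obtain ⟨y, hy, rfl⟩ := Finset.mem_image.1 (Finset.mem_coe.1 hb)
      rw [hD.compl, hD.compl] at hab
      have h1 := hj (x - y) (Finset.mem_filter.2 ⟨Finset.mem_image.2
        ⟨(x, y), Finset.mem_product.2 ⟨hx, hy⟩, rfl⟩, by rw [map_sub, hab, sub_self]⟩)
      rw [map_sub, sub_eq_zero] at h1
      exact h1
    have h2 := Finsupp.mapDomain_injOn (M := A) _ hinj
    have h3 : Finsupp.mapDomain (t i j h) w ∈ {v : N j →₀ A | (v.support : Set (N j)) ⊆
        ((w.support.image (t i j h) : Finset (N j)) : Set (N j))} :=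
      Finset.coe_subset.2 Finsupp.mapDomain_support
    have h4 : (0 : N j →₀ A) ∈ {v : N j →₀ A | (v.support : Set (N j)) ⊆
        ((w.support.image (t i j h) : Finset (N j)) : Set (N j))} := by
      simp
    exact h2 h3 h4 (by rw [hcl, hw, Finsupp.mapDomain_zero])

end Pool.Agent.U364.LBP
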